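import Pool.Agent.Helper72.WC.Defs

/-!
# Project WC, module B: attaching every cluster to every seed
-/

set_option autoImplicit false

namespace Pool.Agent.Helper72.WC

open Finset

variable {n : ℕ}

/-- The pairs which can attach the cluster of `z` to the seed `X j`. -/
def h14F {k : ℕ} (L : ℕ) (f : Fin n → Fin n) (X : Fin k → Finset (Fin n)) (a : Fin n × Fin k) :
    Finset (Sym2 (Fin n)) :=
  ((cl f a.1 ×ˢ X a.2).filter fun p => rs L p.2 = rs L p.1 + 2).image fun p => s(p.1, p.2)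

theorem h14_mem_F {k L : ℕ} {f : Fin n → Fin n} {X : Fin k → Finset (Fin n)}
    {a : Fin n × Fin k} {e : Sym2 (Fin n)} :
    e ∈ h14F L f X a ↔ ∃ x y, f x = a.1 ∧ y ∈ X a.2 ∧ rs L y = rs L x + 2 ∧ e = s(x, y) := by
  simp only [h14F, mem_image, mem_filter, mem_product, cl, mem_univ, true_and, Prod.exists]
  constructor
  · rintro ⟨x, y, ⟨⟨h1, h2⟩, h3⟩, rfl⟩
    exact ⟨x, y, h1, h2, h3, rfl⟩
  · rintro ⟨x, y, h1, h2, h3, rfl⟩
    exact ⟨x, y, ⟨⟨h1, h2⟩, h3⟩, rfl⟩

theorem h14_four_ne {L : ℕ} (hL : 5 ≤ L) (x y : ZMod L) (h1 : y = x + 2) (h2 : x = y + 2) :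
    False := by
  have h3 : (4 : ZMod L) = 0 := by
    have h4 : x + 4 = x + 0 := by
      have h5 : x = x + 2 + 2 := by
        conv_lhs => rw [h2, h1]
      rw [add_zero]
      conv_rhs => rw [h5]
      ring
    exact add_left_cancel h4
  have h5 : ((4 : ℕ) : ZMod L) = 0 := by exact_mod_cast h3
  rw [ZMod.natCast_eq_zero_iff] at h5
  have := Nat.le_of_dvd (by norm_num) h5
  omega

theorem attach {b L d M k : ℕ} [NeZero L] (hL : 5 ≤ L) (hb : 0 < b) {f : Fin n → Fin n}
    (hff : ∀ v, f (f v) = f v) {X : Fin k → Finset (Fin n)}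
    (hdisj : ∀ i j, i ≠ j → Disjoint (X i) (X j)) (hXf : ∀ j, ∀ v ∈ X j, cl f (f v) ⊆ X j)
    (hXr : ∀ j r, d ≤ 2 * (fib L (X j) r).card) (hM : ∀ v, M ≤ (cl f (f v)).card)
    (hnum : 2 * b ≤ M * d) {U C : Finset (Sym2 (Fin n))}
    (hU : ∀ x y, x ≠ y → relB L x y → s(x, y) ∈ U) :
    Force b (fun _ C' => C ⊆ C' ∧ C' ⊆ C ∪ U ∧ ∀ v j, cl f (f v) ⊆ X j ∨
      ∃ u ∈ cl f (f v), ∃ y ∈ X j, s(u, y) ∈ C') U C := by
  classical
  -- the active pairs
  let act : Fin n × Fin k → Prop := fun a => f a.1 = a.1 ∧ a.1 ∉ X a.2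
  have hne : ∀ a, act a → ∀ x y, f x = a.1 → y ∈ X a.2 → x ≠ y := by
    rintro a ⟨h1, h2⟩ x y hx hy rfl
    apply h2
    apply hXf a.2 x hy
    simp only [cl, mem_filter, mem_univ, true_and]
    rw [hx, h1]
  have hnex : ∀ a, act a → ∀ x, f x = a.1 → x ∉ X a.2 := fun a ha x hx hx' =>
    hne a ha x x hx hx' rfl
  have hFU : ∀ a, act a → h14F L f X a ⊆ U := by
    intro a ha e he
    obtain ⟨x, y, hx, hy, hr, rfl⟩ := h14_mem_F.1 he
    exact hU x y (hne a ha x y hx hy) (Or.inl hr)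
  have hcard : ∀ a, act a → b ≤ (h14F L f X a).card := by
    intro a ha
    have h1 : (h14F L f X a).card =
        ((cl f a.1 ×ˢ X a.2).filter fun p => rs L p.2 = rs L p.1 + 2).card := by
      apply card_image_of_injOn
      rintro ⟨x, y⟩ hp ⟨x', y'⟩ hp' h
      simp only [coe_filter, mem_product, cl, mem_filter, mem_univ, true_and,
        Set.mem_ofPred_eq] at hp hp'
      simp only [Sym2.eq_iff] at h
      rcases h with ⟨rfl, rfl⟩ | ⟨rfl, rfl⟩
      · rfl
      · exact absurd hp'.1.2 (hnex a ha _ hp.1.1)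
    have h2 : ((cl f a.1 ×ˢ X a.2).filter fun p => rs L p.2 = rs L p.1 + 2).card =
        ∑ x ∈ cl f a.1, (fib L (X a.2) (rs L x + 2)).card := by
      rw [card_filter, sum_product]
      apply sum_congr rfl
      intro x _
      rw [fib, card_filter]
    have h3 : M * d ≤ 2 * (h14F L f X a).card := by
      rw [h1, h2, mul_sum]
      calc M * d ≤ (cl f a.1).card * d := by
            apply Nat.mul_le_mul_right
            have := hM a.1
            rwa [ha.1] at this
        _ = ∑ x ∈ cl f a.1, d := by rw [sum_const, smul_eq_mul]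
        _ ≤ _ := sum_le_sum fun x _ => hXr _ _
    omega
  have hFF : ∀ a a', act a → act a' → a ≠ a' → Disjoint (h14F L f X a) (h14F L f X a') := by
    intro a a' ha ha' haa
    rw [disjoint_left]
    intro e he he'
    obtain ⟨x, y, hx, hy, hr, rfl⟩ := h14_mem_F.1 he
    obtain ⟨x', y', hx', hy', hr', h⟩ := h14_mem_F.1 he'
    rw [Sym2.eq_iff] at h
    rcases h with ⟨rfl, rfl⟩ | ⟨rfl, rfl⟩
    · apply haa
      have h1 : a.1 = a'.1 := hx.symm.trans hx'
      have h2 : a.2 = a'.2 := by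
        by_contra h3
        exact disjoint_left.1 (hdisj _ _ h3) hy hy'
      exact Prod.ext h1 h2
    · exact h14_four_ne hL _ _ hr hr'
  have key : ∀ T : Finset (Fin n × Fin k), (∀ a ∈ T, act a) →
      Force b (fun U' C' => C ⊆ C' ∧ C' ⊆ C ∪ U ∧ (∀ a, act a → a ∉ T → h14F L f X a ⊆ U') ∧
        ∀ a ∈ T, ∃ u ∈ cl f a.1, ∃ y ∈ X a.2, s(u, y) ∈ C') U C := by
    intro T
    induction T using Finset.induction_on with
    | empty =>
      intro _
      exact Force.here ⟨Subset.rfl, subset_union_left, fun a ha _ => hFU a ha, by simp⟩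
    | insert a T haT ih =>
      intro hT
      refine (ih fun c hc => hT c (mem_insert_of_mem hc)).trans ?_
      rintro U' C' ⟨h1, h2, h3, h4⟩
      have ha : act a := hT a (mem_insert_self _ _)
      refine (force_pick (h3 a ha haT) (hcard a ha)).mono ?_
      rintro U'' C'' ⟨B, hB, -, e, he, rfl, rfl⟩
      refine ⟨h1.trans (subset_insert _ _), ?_, ?_, ?_⟩
      · apply insert_subset _ h2
        exact mem_union_right _ (hFU a ha (hB he))
      · intro c hc hcT
        have hca : c ≠ a := fun h => hcT (h ▸ mem_insert_self _ _)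
        have hcT' : c ∉ T := fun h => hcT (mem_insert_of_mem h)
        intro x hx
        rw [mem_sdiff]
        exact ⟨h3 c hc hcT' hx, fun hxB => disjoint_left.1 (hFF c a hc ha hca) hx (hB hxB)⟩
      · intro c hc
        rcases mem_insert.1 hc with rfl | hc
        · obtain ⟨x, y, hx, hy, -, rfl⟩ := h14_mem_F.1 (hB he)
          exact ⟨x, by simp [cl, hx], y, hy, mem_insert_self _ _⟩
        · obtain ⟨u, hu, y, hy, h5⟩ := h4 c hc
          exact ⟨u, hu, y, hy, mem_insert_of_mem h5⟩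
  refine (key (univ.filter act) (by simp)).mono ?_
  rintro U' C' ⟨h1, h2, -, h4⟩
  refine ⟨h1, h2, fun v j => ?_⟩
  by_cases h : f v ∈ X j
  · left
    have := hXf j (f v) h
    rwa [hff] at this
  · right
    exact h4 (f v, j) (by simp [act, hff, h])

end Pool.Agent.Helper72.WC
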